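import Mathlib

open Finset
open scoped Nat

namespace Pool.Agent.V11181.TCR

section groups

/-- For finite subgroups `H, K ≤ L`: `|H||K| ≤ |H ∩ K||L|`. -/
theorem card_mul_card_le {G : Type*} [Group G] [Finite G] (H K L : Subgroup G)
    (hH : H ≤ L) (hK : K ≤ L) :
    Nat.card H * Nat.card K ≤ Nat.card (H ⊓ K : Subgroup G) * Nat.card L := by
  have key : ∀ M : Subgroup G, Nat.card (H ⊓ M : Subgroup G) * H.relIndex M = Nat.card M := by
    intro M
    have h1 := Subgroup.card_mul_index (H.subgroupOf M)
    have h2 : Nat.card (H.subgroupOf M) = Nat.card (H ⊓ M : Subgroup G) := by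
      rw [← Subgroup.inf_subgroupOf_right]
      exact Nat.card_congr (Subgroup.subgroupOfEquivOfLe (inf_le_right)).toEquiv
    rw [← h2]
    exact h1
  have hK' := key K
  have hL' := key L
  rw [inf_eq_left.mpr hH] at hL'
  have hne : H.relIndex L ≠ 0 := by
    intro h0
    rw [h0, mul_zero] at hL'
    exact (Nat.card_pos (α := L)).ne hL'
  have hle := Subgroup.relIndex_le_of_le_right (H := H) hK hne
  rw [← hK', ← hL']
  calc Nat.card H * (Nat.card (H ⊓ K : Subgroup G) * H.relIndex K)
      = Nat.card H * Nat.card (H ⊓ K : Subgroup G) * H.relIndex K := by ring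
    _ ≤ Nat.card H * Nat.card (H ⊓ K : Subgroup G) * H.relIndex L := Nat.mul_le_mul_left _ hle
    _ = Nat.card (H ⊓ K : Subgroup G) * (Nat.card H * H.relIndex L) := by ring

end groups

section perms

variable {n : ℕ} {A : Type*} [AddCommGroup A]

/-- permutations preserving `f` modulo `U` -/
def HU (f : Fin n → A) (U : AddSubgroup A) : Subgroup (Equiv.Perm (Fin n)) where
  carrier := {g | ∀ i, f (g i) - f i ∈ U}
  mul_mem' {g h} hg hh := by
    intro i
    have h1 := hg (h i)
    have h2 := hh i
    have := U.add_mem h1 h2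
    simpa [Equiv.Perm.mul_apply] using this
  one_mem' := by intro i; simp
  inv_mem' {g} hg := by
    intro i
    have h1 := hg (g⁻¹ i)
    have h2 : g (g⁻¹ i) = i := Equiv.apply_symm_apply g i
    rw [h2] at h1
    simpa using U.neg_mem h1

theorem mem_HU (f : Fin n → A) (U : AddSubgroup A) (g : Equiv.Perm (Fin n)) :
    g ∈ HU f U ↔ ∀ i, f (g i) - f i ∈ U := Iff.rfl

theorem HU_mono (f : Fin n → A) {U W : AddSubgroup A} (h : U ≤ W) : HU f U ≤ HU f W :=
  fun _ hg i => h (hg i)

theorem HU_inf (f : Fin n → A) (U W : AddSubgroup A) : HU f (U ⊓ W) = HU f U ⊓ HU f W := by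
  ext g
  simp only [Subgroup.mem_inf, mem_HU, AddSubgroup.mem_inf]
  exact forall_and

theorem HU_mul (f : Fin n → A) (U W L : AddSubgroup A) (h1 : U ≤ L) (h2 : W ≤ L) :
    Nat.card (HU f U) * Nat.card (HU f W) ≤ Nat.card (HU f (U ⊓ W)) * Nat.card (HU f L) := by
  rw [HU_inf]
  exact card_mul_card_le _ _ _ (HU_mono f h1) (HU_mono f h2)

theorem HU_card (f : Fin n → A) (U : AddSubgroup A) [Fintype (A ⧸ U)] [DecidableEq (A ⧸ U)] :
    Nat.card (HU f U) =
      ∏ z : A ⧸ U, (Fintype.card {i // (QuotientAddGroup.mk (f i) : A ⧸ U) = z})! := by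
  rw [← DomMulAct.stabilizer_card (fun i => (QuotientAddGroup.mk (f i) : A ⧸ U)),
    ← Nat.card_eq_fintype_card]
  apply Nat.card_congr
  refine Equiv.subtypeEquiv (Equiv.refl _) ?_
  intro g
  simp only [Equiv.refl_apply]
  constructor
  · intro hg
    funext i
    simp only [Function.comp_apply]
    rw [eq_comm, QuotientAddGroup.eq]
    have := hg i
    rwa [sub_eq_neg_add] at this
  · intro hg i
    have := congrFun hg i
    simp only [Function.comp_apply] at this
    rw [eq_comm, QuotientAddGroup.eq] at this
    rw [sub_eq_neg_add]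
    exact this

/-- a balanced function: every nonzero value is taken `a` times and zero `b` times -/
def Balanced [DecidableEq A] (f : Fin n → A) (a b : ℕ) : Prop :=
  (∀ x, x ≠ 0 → Fintype.card {i // f i = x} = a) ∧ Fintype.card {i // f i = 0} = b

/-- the stabiliser cardinality as a function of the order `c` of the subgroup -/
def hF (Q a b c : ℕ) : ℕ := (b + (c - 1) * a)! * ((c * a)!) ^ (Q / c - 1)

theorem fiber_card (U : AddSubgroup A) (z : A ⧸ U) :
    Nat.card {x : A // (QuotientAddGroup.mk x : A ⧸ U) = z} = Nat.card U := by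
  obtain ⟨y, rfl⟩ := QuotientAddGroup.mk_surjective z
  refine Nat.card_congr ⟨fun x => ⟨-y + x.1, ?_⟩, fun u => ⟨y + u.1, ?_⟩, ?_, ?_⟩
  · have := x.2
    rw [eq_comm, QuotientAddGroup.eq] at this
    exact this
  · rw [eq_comm, QuotientAddGroup.eq]
    simp
  · intro x; simp
  · intro u; simp

theorem HU_card_balanced [Fintype A] [DecidableEq A] (f : Fin n → A) {a b : ℕ} (hf : Balanced f a b) (U : AddSubgroup A) :
    Nat.card (HU f U) = hF (Nat.card A) a b (Nat.card U) := by
  classical
  have : Fintype (A ⧸ U) := Fintype.ofFinite _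
  have hfib : ∀ z : A ⧸ U, Fintype.card {i // (QuotientAddGroup.mk (f i) : A ⧸ U) = z} =
      if z = 0 then b + (Nat.card U - 1) * a else Nat.card U * a := by
    intro z
    have h1 : Fintype.card {i // (QuotientAddGroup.mk (f i) : A ⧸ U) = z} =
        ∑ x ∈ univ.filter (fun x : A => (QuotientAddGroup.mk x : A ⧸ U) = z),
          Fintype.card {i // f i = x} := by
      rw [Fintype.card_subtype]
      rw [Finset.card_eq_sum_card_fiberwise (f := f)
        (t := univ.filter (fun x : A => (QuotientAddGroup.mk x : A ⧸ U) = z))]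
      · apply Finset.sum_congr rfl
        intro x hx
        rw [Fintype.card_subtype]
        congr 1
        ext i
        simp only [mem_filter, mem_univ, true_and] at hx ⊢
        constructor
        · exact fun h => h.2
        · intro h
          exact ⟨by rw [h]; exact hx, h⟩
      · intro i hi
        simpa using hi
    have hcard : (univ.filter (fun x : A => (QuotientAddGroup.mk x : A ⧸ U) = z)).card
        = Nat.card U := by
      rw [← fiber_card U z, Nat.card_eq_fintype_card, Fintype.card_subtype]
    rw [h1]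
    by_cases hz : z = 0
    · subst hz
      have h0 : (0 : A) ∈ univ.filter (fun x : A => (QuotientAddGroup.mk x : A ⧸ U) = 0) := by
        simp
      rw [← Finset.add_sum_erase _ _ h0, if_pos rfl, hf.2]
      congr 1
      rw [Finset.sum_congr rfl (g := fun _ => a)]
      · rw [Finset.sum_const, Finset.card_erase_of_mem h0, hcard, smul_eq_mul]
      · intro x hx
        exact hf.1 x (Finset.ne_of_mem_erase hx)
    · rw [if_neg hz, Finset.sum_congr rfl (g := fun _ => a)]
      · rw [Finset.sum_const, hcard, smul_eq_mul]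
      · intro x hx
        apply hf.1 x
        rintro rfl
        simp only [mem_filter, mem_univ, true_and] at hx
        exact hz hx.symm
  rw [HU_card]
  simp only [hfib]
  rw [← Finset.mul_prod_erase univ _ (Finset.mem_univ (0 : A ⧸ U)), if_pos rfl]
  unfold hF
  congr 1
  rw [Finset.prod_congr rfl (g := fun _ => (Nat.card U * a)!)]
  · rw [Finset.prod_const, Finset.card_erase_of_mem (Finset.mem_univ _), Finset.card_univ]
    congr 2
    have h1 := AddSubgroup.card_eq_card_quotient_mul_card_addSubgroup U
    rw [← Nat.card_eq_fintype_card]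
    exact (Nat.div_eq_of_eq_mul_left Nat.card_pos h1).symm
  · intro z hz
    rw [if_neg (Finset.ne_of_mem_erase hz)]

end perms

section coord

variable {F : Type*} [Field F] {t : ℕ}

/-- vectors supported on `I` -/
def coordS (F : Type*) [Field F] {t : ℕ} (I : Finset (Fin t)) : AddSubgroup (Fin t → F) where
  carrier := {x | ∀ i, i ∉ I → x i = 0}
  add_mem' {x y} hx hy := by
    intro i hi
    rw [Pi.add_apply, hx i hi, hy i hi, add_zero]
  zero_mem' := by intro i _; rfl
  neg_mem' {x} hx := by
    intro i hi
    rw [Pi.neg_apply, hx i hi, neg_zero]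

theorem mem_coordS (I : Finset (Fin t)) (x : Fin t → F) :
    x ∈ coordS F I ↔ ∀ i, i ∉ I → x i = 0 := Iff.rfl

theorem coordS_card [Fintype F] (I : Finset (Fin t)) :
    Nat.card (coordS F I) = Fintype.card F ^ I.card := by
  have e : (coordS F I) ≃ (I → F) :=
    { toFun := fun x i => x.1 i.1
      invFun := fun y => ⟨fun i => if h : i ∈ I then y ⟨i, h⟩ else 0, by
        intro i hi
        simp [hi]⟩
      left_inv := by
        intro x
        apply Subtype.ext
        funext i
        by_cases h : i ∈ I
        · simp [h]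
        · simp [h, x.2 i h]
      right_inv := by
        intro y
        funext i
        simp }
  rw [Nat.card_congr e, Nat.card_eq_fintype_card]
  simp

theorem coordS_inf (I J : Finset (Fin t)) : coordS F I ⊓ coordS F J = coordS F (I ∩ J) := by
  ext x
  simp only [AddSubgroup.mem_inf, mem_coordS, Finset.mem_inter]
  constructor
  · rintro ⟨h1, h2⟩ i hi
    by_cases h : i ∈ I
    · exact h2 i (fun h' => hi ⟨h, h'⟩)
    · exact h1 i h
  · intro h
    exact ⟨fun i hi => h i (fun h' => hi h'.1), fun i hi => h i (fun h' => hi h'.2)⟩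

theorem coordS_mono {I J : Finset (Fin t)} (h : I ⊆ J) : coordS F I ≤ coordS F J :=
  fun _ hx i hi => hx i (fun h' => hi (h h'))

/-- log-convexity of the stabiliser cardinalities -/
theorem hF_convex [Fintype F] [DecidableEq F] {n : ℕ} (f : Fin n → (Fin t → F)) {a b : ℕ} (hf : Balanced f a b)
    (s : ℕ) (hst : s < t) :
    hF (Fintype.card F ^ t) a b (Fintype.card F ^ s) *
      hF (Fintype.card F ^ t) a b (Fintype.card F ^ s) ≤
    hF (Fintype.card F ^ t) a b (Fintype.card F ^ (s - 1)) *
      hF (Fintype.card F ^ t) a b (Fintype.card F ^ (s + 1)) := by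
  classical
  have hQ : Nat.card (Fin t → F) = Fintype.card F ^ t := by simp
  let I : Finset (Fin t) := univ.filter (fun i => i.1 < s)
  let J : Finset (Fin t) := univ.filter (fun i => 1 ≤ i.1 ∧ i.1 < s + 1)
  let K : Finset (Fin t) := univ.filter (fun i => i.1 < s + 1)
  have hcount : ∀ (lo hi : ℕ), hi ≤ t →
      (univ.filter (fun i : Fin t => lo ≤ i.1 ∧ i.1 < hi)).card = hi - lo := by
    intro lo hi hhi
    rw [← Nat.card_Ico lo hi]
    apply Finset.card_bij (fun i _ => i.1)
    · intro i hi'
      simpa using hi'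
    · intro i _ j _ hij
      exact Fin.ext hij
    · intro m hm
      rw [Finset.mem_Ico] at hm
      exact ⟨⟨m, by omega⟩, by simpa using hm, rfl⟩
  have hI : I.card = s := by
    have := hcount 0 s (by omega)
    simpa [I] using this
  have hJ : J.card = s := by
    have := hcount 1 (s + 1) (by omega)
    simpa [J] using this
  have hK : K.card = s + 1 := by
    have := hcount 0 (s + 1) (by omega)
    simpa [K] using this
  have hIJ : (I ∩ J).card = s - 1 := by
    have := hcount 1 s (by omega)
    have h2 : I ∩ J = univ.filter (fun i : Fin t => 1 ≤ i.1 ∧ i.1 < s) := by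
      ext i
      simp only [I, J, Finset.mem_inter, mem_filter, mem_univ, true_and]
      omega
    rw [h2, this]
  have hIK : I ⊆ K := by
    intro i hi
    simp only [I, K, mem_filter, mem_univ, true_and] at hi ⊢
    omega
  have hJK : J ⊆ K := by
    intro i hi
    simp only [J, K, mem_filter, mem_univ, true_and] at hi ⊢
    omega
  have h := HU_mul f (coordS F I) (coordS F J) (coordS F K) (coordS_mono hIK) (coordS_mono hJK)
  rw [coordS_inf] at h
  simp only [HU_card_balanced f hf, coordS_card, hI, hJ, hK, hIJ, hQ] at h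
  exact h

/-- maximum principle for log-convex sequences -/
theorem logconvex_max (p : ℕ → ℝ) (hp : ∀ i, 0 < p i) (t : ℕ)
    (hc : ∀ s, 1 ≤ s → s < t → p s * p s ≤ p (s - 1) * p (s + 1)) :
    ∀ s, s ≤ t → p s ≤ max (p 0) (p t) := by
  induction t with
  | zero =>
    intro s hs
    have : s = 0 := by omega
    subst this
    exact le_max_left _ _
  | succ t ih =>
    have ih' := ih (fun s h1 h2 => hc s h1 (by omega))
    have hpt : p t ≤ max (p 0) (p (t + 1)) := by
      by_contra hcon
      rw [not_le, max_lt_iff] at hcon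
      obtain ⟨h1, h2⟩ := hcon
      have ht : 1 ≤ t := by
        by_contra h
        have : t = 0 := by omega
        subst this
        exact lt_irrefl _ h1
      have h3 := ih' (t - 1) (by omega)
      rw [max_eq_right h1.le] at h3
      have h4 := hc t ht (by omega)
      have h5 : p (t - 1) * p (t + 1) ≤ p t * p (t + 1) :=
        mul_le_mul_of_nonneg_right h3 (hp _).le
      have h6 : p t * p (t + 1) < p t * p t := mul_lt_mul_of_pos_left h2 (hp _)
      linarith
    intro s hs
    rcases Nat.lt_or_ge t s with h | h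
    · have : s = t + 1 := by omega
      subst this
      exact le_max_right _ _
    · refine (ih' s h).trans (max_le (le_max_left _ _) hpt)

theorem logconvex_nat (h : ℕ → ℕ) (hpos : ∀ i, 0 < h i) (t x : ℕ) (hx : 0 < x)
    (hc : ∀ s, 1 ≤ s → s < t → h s * h s ≤ h (s - 1) * h (s + 1))
    (h0 : x ^ t * h 0 ≤ h t) : ∀ s, s ≤ t → x ^ t * h s ≤ h t * x ^ s := by
  intro s hs
  have hxr : (0 : ℝ) < x := by exact_mod_cast hx
  let p : ℕ → ℝ := fun i => (h i : ℝ) / (x : ℝ) ^ i
  have hp : ∀ i, 0 < p i := fun i => div_pos (by exact_mod_cast hpos i) (pow_pos hxr i)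
  have hm := logconvex_max p hp t (by
    intro s h1 h2
    have h3 : ((h s : ℝ)) * h s ≤ h (s - 1) * h (s + 1) := by exact_mod_cast hc s h1 h2
    simp only [p]
    rw [div_mul_div_comm, div_mul_div_comm, ← pow_add, ← pow_add,
      show s - 1 + (s + 1) = s + s by omega]
    exact div_le_div_of_nonneg_right h3 (by positivity)) s hs
  have h0' : p 0 ≤ p t := by
    simp only [p, pow_zero, div_one]
    rw [le_div_iff₀ (pow_pos hxr t)]
    have : (x : ℝ) ^ t * h 0 ≤ h t := by exact_mod_cast h0
    linarith
  rw [max_eq_right h0'] at hm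
  simp only [p] at hm
  rw [div_le_div_iff₀ (pow_pos hxr _) (pow_pos hxr _)] at hm
  have : (x : ℝ) ^ t * h s ≤ h t * x ^ s := by linarith
  exact_mod_cast this

end coord

end Pool.Agent.V11181.TCR
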