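import Mathlib
import Pool.Agent.V11181.TCR.Perm

open Finset
open scoped Nat

namespace Pool.Agent.V11181.TCR

/-- Cauchy–Schwarz for the image of a map. -/
theorem cs {X Y : Type*} [Fintype X] [DecidableEq Y] (Ψ : X → Y) :
    (Fintype.card X) ^ 2 ≤ (univ.image Ψ).card *
      (univ.filter (fun p : X × X => Ψ p.1 = Ψ p.2)).card := by
  classical
  have h1 : Fintype.card X = ∑ u ∈ univ.image Ψ, (univ.filter (fun x => Ψ x = u)).card := by
    rw [← Finset.card_univ]
    exact Finset.card_eq_sum_card_image Ψ univ
  have h2 : (univ.filter (fun p : X × X => Ψ p.1 = Ψ p.2)).card =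
      ∑ u ∈ univ.image Ψ, (univ.filter (fun x => Ψ x = u)).card ^ 2 := by
    rw [Finset.card_eq_sum_card_fiberwise (f := fun p : X × X => Ψ p.1) (t := univ.image Ψ)]
    · apply Finset.sum_congr rfl
      intro u _
      rw [sq, ← Finset.card_product]
      congr 1
      ext p
      simp only [mem_filter, mem_univ, true_and, mem_product]
      constructor
      · rintro ⟨h, h'⟩
        exact ⟨h', by rw [← h, h']⟩
      · rintro ⟨h, h'⟩
        exact ⟨by rw [h, h'], h⟩
    · intro p _
      simp
  rw [h1, h2]
  exact sq_sum_le_card_mul_sum_sq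

theorem perm_pairs {n : ℕ} {A : Type*} [AddCommGroup A] (f : Fin n → A) (U : AddSubgroup A) :
    Nat.card {p : Equiv.Perm (Fin n) × Equiv.Perm (Fin n) // ∀ i, f (p.1 i) - f (p.2 i) ∈ U} =
      n ! * Nat.card (HU f U) := by
  have e : {p : Equiv.Perm (Fin n) × Equiv.Perm (Fin n) // ∀ i, f (p.1 i) - f (p.2 i) ∈ U} ≃
      Equiv.Perm (Fin n) × HU f U :=
    { toFun := fun p => (p.1.2, ⟨p.1.1 * p.1.2⁻¹, by
        intro i
        have := p.2 (p.1.2⁻¹ i)
        have h2 : p.1.2 (p.1.2⁻¹ i) = i := Equiv.apply_symm_apply _ i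
        rw [h2] at this
        exact this⟩)
      invFun := fun x => ⟨(x.2.1 * x.1, x.1), by
        intro i
        exact x.2.2 (x.1 i)⟩
      left_inv := by
        intro p
        apply Subtype.ext
        simp
      right_inv := by
        intro x
        apply Prod.ext
        · rfl
        · apply Subtype.ext
          simp }
  rw [Nat.card_congr e, Nat.card_prod, Nat.card_eq_fintype_card, Fintype.card_perm,
    Fintype.card_fin]

section main

variable {F : Type*} [Field F] [Fintype F] {n k t : ℕ}

theorem ker_range (E : Matrix (Fin t) (Fin k) F) :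
    Nat.card (LinearMap.ker E.mulVecLin) * Nat.card (LinearMap.range E.mulVecLin) =
      Fintype.card F ^ k := by
  have h1 := LinearMap.finrank_range_add_finrank_ker E.mulVecLin
  rw [Module.finrank_fintype_fun_eq_card, Fintype.card_fin] at h1
  rw [Module.natCard_eq_pow_finrank (K := F) (V := LinearMap.ker E.mulVecLin),
    Module.natCard_eq_pow_finrank (K := F) (V := LinearMap.range E.mulVecLin),
    ← pow_add, add_comm, h1, Nat.card_eq_fintype_card]

/-- number of matrices `G` with prescribed `E G` -/
theorem count_G (E : Matrix (Fin t) (Fin k) F) (Δ : Fin n → (Fin t → F)) :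
    Nat.card {G : Fin n → (Fin k → F) // ∀ i, E.mulVec (G i) = Δ i} ≤
      Nat.card (LinearMap.ker E.mulVecLin) ^ n := by
  classical
  by_cases hne : Nonempty {G : Fin n → (Fin k → F) // ∀ i, E.mulVec (G i) = Δ i}
  · obtain ⟨G0, hG0⟩ := hne
    have hinj : Function.Injective
        (fun (G : {G : Fin n → (Fin k → F) // ∀ i, E.mulVec (G i) = Δ i}) (i : Fin n) =>
          (⟨G.1 i - G0 i, by
            rw [LinearMap.mem_ker, Matrix.mulVecLin_apply, Matrix.mulVec_sub, G.2 i, hG0 i,
              sub_self]⟩ : LinearMap.ker E.mulVecLin)) := by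
      intro G G' h
      apply Subtype.ext
      funext i
      have := congrArg Subtype.val (congrFun h i)
      simpa using this
    have := Nat.card_le_card_of_injective _ hinj
    rw [Nat.card_fun, Nat.card_eq_fintype_card (α := Fin n), Fintype.card_fin] at this
    exact this
  · rw [not_nonempty_iff] at hne
    rw [Nat.card_of_isEmpty]
    exact Nat.zero_le _

theorem count_range (U : Submodule F (Fin t → F)) :
    Nat.card {E : Matrix (Fin t) (Fin k) F // LinearMap.range E.mulVecLin = U} ≤
      Nat.card U ^ k := by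
  have hinj : Function.Injective
      (fun (E : {E : Matrix (Fin t) (Fin k) F // LinearMap.range E.mulVecLin = U}) (i : Fin k) =>
        (⟨E.1.mulVec (Pi.single i 1), by
          have h : E.1.mulVec (Pi.single i 1) ∈ LinearMap.range E.1.mulVecLin :=
            ⟨Pi.single i 1, rfl⟩
          exact (SetLike.ext_iff.mp E.2 _).mp h⟩ : U)) := by
    intro E E' h
    apply Subtype.ext
    ext a i
    have := congrArg Subtype.val (congrFun h i)
    have h2 := congrFun this a
    simpa using h2
  have := Nat.card_le_card_of_injective _ hinj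
  rw [Nat.card_fun, Nat.card_eq_fintype_card (α := Fin k), Fintype.card_fin] at this
  exact this

variable [DecidableEq F]

/-- the map whose image is the set of covered words -/
def Psi (f : Fin n → (Fin t → F)) (G : Fin n → (Fin k → F))
    (p : Matrix (Fin t) (Fin k) F × Equiv.Perm (Fin n)) : Fin n → (Fin t → F) :=
  fun i => p.1.mulVec (G i) - f (p.2 i)

/-- collision bound, summed over all generator matrices -/
theorem total_le (f : Fin n → (Fin t → F)) :
    ∑ G : Fin n → (Fin k → F),
      (univ.filter (fun p : (Matrix (Fin t) (Fin k) F × Equiv.Perm (Fin n)) ×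
        (Matrix (Fin t) (Fin k) F × Equiv.Perm (Fin n)) => Psi f G p.1 = Psi f G p.2)).card ≤
    Fintype.card (Matrix (Fin t) (Fin k) F) * ∑ E : Matrix (Fin t) (Fin k) F,
      n ! * Nat.card (HU f (LinearMap.range E.mulVecLin).toAddSubgroup) *
        Nat.card (LinearMap.ker E.mulVecLin) ^ n := by
  classical
  have h1 : ∀ D D' : Matrix (Fin t) (Fin k) F, ∀ g g' : Equiv.Perm (Fin n),
      (∑ G : Fin n → (Fin k → F), if Psi f G (D, g) = Psi f G (D', g') then 1 else 0) ≤
      if (∀ i, f (g i) - f (g' i) ∈ (LinearMap.range (D - D').mulVecLin).toAddSubgroup) then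
        Nat.card (LinearMap.ker (D - D').mulVecLin) ^ n else 0 := by
    intro D D' g g'
    have hiff : ∀ G : Fin n → (Fin k → F), Psi f G (D, g) = Psi f G (D', g') ↔
        ∀ i, (D - D').mulVec (G i) = f (g i) - f (g' i) := by
      intro G
      rw [funext_iff]
      apply forall_congr'
      intro i
      simp only [Psi]
      rw [Matrix.sub_mulVec, sub_eq_sub_iff_sub_eq_sub]
    rw [← Finset.card_filter]
    have h2 : (univ.filter (fun G => Psi f G (D, g) = Psi f G (D', g'))).card =
        Nat.card {G : Fin n → (Fin k → F) //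
          ∀ i, (D - D').mulVec (G i) = f (g i) - f (g' i)} := by
      rw [Nat.card_eq_fintype_card, Fintype.card_subtype]
      congr 1
      ext G
      simp only [mem_filter, mem_univ, true_and]
      exact hiff G
    rw [h2]
    split_ifs with hc
    · exact count_G _ _
    · have : IsEmpty {G : Fin n → (Fin k → F) //
          ∀ i, (D - D').mulVec (G i) = f (g i) - f (g' i)} := by
        constructor
        rintro ⟨G, hG⟩
        apply hc
        intro i
        rw [← hG i]
        exact ⟨G i, rfl⟩
      rw [Nat.card_of_isEmpty]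
  have h3 : ∀ E : Matrix (Fin t) (Fin k) F,
      (∑ g : Equiv.Perm (Fin n), ∑ g' : Equiv.Perm (Fin n),
        if (∀ i, f (g i) - f (g' i) ∈ (LinearMap.range E.mulVecLin).toAddSubgroup) then
          Nat.card (LinearMap.ker E.mulVecLin) ^ n else 0) =
      n ! * Nat.card (HU f (LinearMap.range E.mulVecLin).toAddSubgroup) *
        Nat.card (LinearMap.ker E.mulVecLin) ^ n := by
    intro E
    rw [← perm_pairs]
    generalize Nat.card (LinearMap.ker E.mulVecLin) ^ n = c
    rw [Nat.card_eq_fintype_card, Fintype.card_subtype, Finset.card_filter,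
      Finset.sum_mul, Fintype.sum_prod_type]
    apply Finset.sum_congr rfl
    intro g _
    apply Finset.sum_congr rfl
    intro g' _
    rw [ite_mul, one_mul, zero_mul]
  calc ∑ G : Fin n → (Fin k → F),
      (univ.filter (fun p : (Matrix (Fin t) (Fin k) F × Equiv.Perm (Fin n)) ×
        (Matrix (Fin t) (Fin k) F × Equiv.Perm (Fin n)) => Psi f G p.1 = Psi f G p.2)).card
      = ∑ G : Fin n → (Fin k → F), ∑ D : Matrix (Fin t) (Fin k) F, ∑ g : Equiv.Perm (Fin n),
          ∑ D' : Matrix (Fin t) (Fin k) F, ∑ g' : Equiv.Perm (Fin n),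
            if Psi f G (D, g) = Psi f G (D', g') then 1 else 0 := by
        apply Finset.sum_congr rfl
        intro G _
        rw [Finset.card_filter, Fintype.sum_prod_type, Fintype.sum_prod_type]
        apply Finset.sum_congr rfl
        intro D _
        apply Finset.sum_congr rfl
        intro g _
        rw [Fintype.sum_prod_type]
    _ = ∑ D : Matrix (Fin t) (Fin k) F, ∑ D' : Matrix (Fin t) (Fin k) F,
          ∑ g : Equiv.Perm (Fin n), ∑ g' : Equiv.Perm (Fin n), ∑ G : Fin n → (Fin k → F),
            if Psi f G (D, g) = Psi f G (D', g') then 1 else 0 := by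
        rw [Finset.sum_comm]
        apply Finset.sum_congr rfl
        intro D _
        rw [Finset.sum_comm]
        have : ∀ g : Equiv.Perm (Fin n), (∑ G : Fin n → (Fin k → F),
            ∑ D' : Matrix (Fin t) (Fin k) F, ∑ g' : Equiv.Perm (Fin n),
            if Psi f G (D, g) = Psi f G (D', g') then 1 else 0) =
            ∑ D' : Matrix (Fin t) (Fin k) F, ∑ g' : Equiv.Perm (Fin n),
              ∑ G : Fin n → (Fin k → F),
                if Psi f G (D, g) = Psi f G (D', g') then 1 else 0 := by
          intro g
          rw [Finset.sum_comm]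
          apply Finset.sum_congr rfl
          intro D' _
          rw [Finset.sum_comm]
        simp only [this]
        rw [Finset.sum_comm]
    _ ≤ ∑ D : Matrix (Fin t) (Fin k) F, ∑ D' : Matrix (Fin t) (Fin k) F,
          ∑ g : Equiv.Perm (Fin n), ∑ g' : Equiv.Perm (Fin n),
          if (∀ i, f (g i) - f (g' i) ∈ (LinearMap.range (D - D').mulVecLin).toAddSubgroup) then
            Nat.card (LinearMap.ker (D - D').mulVecLin) ^ n else 0 := by
        apply Finset.sum_le_sum
        intro D _
        apply Finset.sum_le_sum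
        intro D' _
        apply Finset.sum_le_sum
        intro g _
        apply Finset.sum_le_sum
        intro g' _
        exact h1 D D' g g'
    _ = ∑ D : Matrix (Fin t) (Fin k) F, ∑ D' : Matrix (Fin t) (Fin k) F,
          n ! * Nat.card (HU f (LinearMap.range (D - D').mulVecLin).toAddSubgroup) *
            Nat.card (LinearMap.ker (D - D').mulVecLin) ^ n := by
        apply Finset.sum_congr rfl
        intro D _
        apply Finset.sum_congr rfl
        intro D' _
        exact h3 (D - D')
    _ = Fintype.card (Matrix (Fin t) (Fin k) F) * ∑ E : Matrix (Fin t) (Fin k) F,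
      n ! * Nat.card (HU f (LinearMap.range E.mulVecLin).toAddSubgroup) *
        Nat.card (LinearMap.ker E.mulVecLin) ^ n := by
        rw [Finset.sum_comm]
        rw [Finset.sum_congr rfl (g := fun _ => ∑ E : Matrix (Fin t) (Fin k) F,
          n ! * Nat.card (HU f (LinearMap.range E.mulVecLin).toAddSubgroup) *
            Nat.card (LinearMap.ker E.mulVecLin) ^ n)]
        · rw [Finset.sum_const, Finset.card_univ, smul_eq_mul]
        · intro D' _
          exact Fintype.sum_equiv (Equiv.subRight D') _ _ (fun D => rfl)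

theorem sum_range_inv (k t : ℕ) :
    ∑ E : Matrix (Fin t) (Fin k) F,
      (1 / ((Nat.card (LinearMap.range E.mulVecLin) : ℝ) ^ k)) ≤
      (Nat.card (Submodule F (Fin t → F)) : ℝ) := by
  classical
  have : Fintype (Submodule F (Fin t → F)) := Fintype.ofFinite _
  rw [← Finset.sum_fiberwise (s := univ)
    (g := fun E : Matrix (Fin t) (Fin k) F => LinearMap.range E.mulVecLin)]
  rw [Nat.card_eq_fintype_card, ← Finset.card_univ, Finset.cast_card]
  apply Finset.sum_le_sum
  intro U _
  rw [Finset.sum_congr rfl (g := fun _ => 1 / ((Nat.card U : ℝ) ^ k))]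
  · rw [Finset.sum_const, nsmul_eq_mul, mul_one_div]
    have hU : (0 : ℝ) < (Nat.card U : ℝ) ^ k := by
      have : 0 < Nat.card U := Nat.card_pos
      positivity
    rw [div_le_one hU]
    have h := count_range (k := k) U
    rw [Nat.card_eq_fintype_card, Fintype.card_subtype] at h
    exact_mod_cast h
  · intro E hE
    rw [mem_filter] at hE
    rw [hE.2]

/-- second moment: some generator matrix covers a constant fraction -/
theorem exists_G (f : Fin n → (Fin t → F)) {a b : ℕ} (hf : Balanced f a b) (r : ℕ)
    (hr : r + k = n)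
    (hT : (Fintype.card F ^ r) ^ t * hF (Fintype.card F ^ t) a b 1 ≤ n !) :
    ∃ G : Fin n → (Fin k → F), Fintype.card F ^ (t * n) ≤
      Nat.card (Submodule F (Fin t → F)) * (univ.image (Psi f G)).card := by
  classical
  set q := Fintype.card F with hq
  have hqpos : 0 < q := Fintype.card_pos
  set S := Nat.card (Submodule F (Fin t → F)) with hS
  -- the log-convexity consequence
  have hposF : ∀ i, 0 < hF (q ^ t) a b (q ^ i) := by
    intro i
    unfold hF
    positivity
  have htop : hF (q ^ t) a b (q ^ t) = n ! := by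
    have h1 := HU_card_balanced f hf ⊤
    have h2 : HU f ⊤ = ⊤ := by
      ext g
      simp [mem_HU]
    rw [h2, Subgroup.card_top, Nat.card_eq_fintype_card, Fintype.card_perm, Fintype.card_fin,
      AddSubgroup.card_top] at h1
    have h3 : Nat.card (Fin t → F) = q ^ t := by simp [hq]
    rw [h3] at h1
    exact h1.symm
  have hlc : ∀ s, s ≤ t → (q ^ r) ^ t * hF (q ^ t) a b (q ^ s) ≤ n ! * (q ^ r) ^ s := by
    intro s hs
    have := logconvex_nat (fun i => hF (q ^ t) a b (q ^ i)) hposF t (q ^ r) (by positivity)
      (fun s _ h2 => hF_convex f hf s h2) (by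
        simp only [pow_zero]
        rw [htop]
        exact hT) s hs
    rw [htop] at this
    exact this
  -- termwise bound
  have hterm : ∀ E : Matrix (Fin t) (Fin k) F,
      (q ^ r) ^ t * (n ! * Nat.card (HU f (LinearMap.range E.mulVecLin).toAddSubgroup) *
        Nat.card (LinearMap.ker E.mulVecLin) ^ n) *
        Nat.card (LinearMap.range E.mulVecLin) ^ k ≤ n ! * n ! * q ^ (k * n) := by
    intro E
    have hrange : Nat.card (LinearMap.range E.mulVecLin) =
        q ^ Module.finrank F (LinearMap.range E.mulVecLin) := by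
      rw [Module.natCard_eq_pow_finrank (K := F) (V := LinearMap.range E.mulVecLin),
        Nat.card_eq_fintype_card]
    set s := Module.finrank F (LinearMap.range E.mulVecLin) with hs
    have hst : s ≤ t := by
      have := Submodule.finrank_le (LinearMap.range E.mulVecLin)
      rw [Module.finrank_fintype_fun_eq_card, Fintype.card_fin] at this
      exact this
    have hHU : Nat.card (HU f (LinearMap.range E.mulVecLin).toAddSubgroup) =
        hF (q ^ t) a b (q ^ s) := by
      rw [HU_card_balanced f hf]
      have h3 : Nat.card (Fin t → F) = q ^ t := by simp [hq]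
      rw [h3]
      congr 1
    have hkr := ker_range E
    rw [hrange] at hkr
    rw [hHU, hrange]
    calc (q ^ r) ^ t * (n ! * hF (q ^ t) a b (q ^ s) *
        Nat.card (LinearMap.ker E.mulVecLin) ^ n) * (q ^ s) ^ k
        = ((q ^ r) ^ t * hF (q ^ t) a b (q ^ s)) * (n ! *
          Nat.card (LinearMap.ker E.mulVecLin) ^ n * (q ^ s) ^ k) := by ring
      _ ≤ (n ! * (q ^ r) ^ s) * (n ! *
          Nat.card (LinearMap.ker E.mulVecLin) ^ n * (q ^ s) ^ k) :=
          Nat.mul_le_mul_right _ (hlc s hst)
      _ = n ! * n ! * (Nat.card (LinearMap.ker E.mulVecLin) ^ n * ((q ^ r) ^ s * (q ^ s) ^ k)) := by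
          ring
      _ = n ! * n ! * (Nat.card (LinearMap.ker E.mulVecLin) * q ^ s) ^ n := by
          congr 1
          rw [mul_pow]
          congr 1
          rw [← pow_mul, ← pow_mul, ← pow_mul, ← pow_add, ← hr]
          congr 1
          ring
      _ = n ! * n ! * q ^ (k * n) := by
          rw [hkr, ← pow_mul]
  -- real version summed
  have hsum : ((q ^ r) ^ t : ℝ) * (∑ E : Matrix (Fin t) (Fin k) F,
      ((n ! * Nat.card (HU f (LinearMap.range E.mulVecLin).toAddSubgroup) *
        Nat.card (LinearMap.ker E.mulVecLin) ^ n : ℕ) : ℝ)) ≤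
      (n ! * n ! * q ^ (k * n) : ℝ) * S := by
    rw [Finset.mul_sum]
    calc ∑ E : Matrix (Fin t) (Fin k) F, ((q ^ r) ^ t : ℝ) *
        ((n ! * Nat.card (HU f (LinearMap.range E.mulVecLin).toAddSubgroup) *
        Nat.card (LinearMap.ker E.mulVecLin) ^ n : ℕ) : ℝ)
        ≤ ∑ E : Matrix (Fin t) (Fin k) F, (n ! * n ! * q ^ (k * n) : ℝ) *
          (1 / ((Nat.card (LinearMap.range E.mulVecLin) : ℝ) ^ k)) := by
          apply Finset.sum_le_sum
          intro E _
          have hU : (0 : ℝ) < (Nat.card (LinearMap.range E.mulVecLin) : ℝ) ^ k := by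
            have : 0 < Nat.card (LinearMap.range E.mulVecLin) := Nat.card_pos
            positivity
          rw [mul_one_div, le_div_iff₀ hU]
          exact_mod_cast hterm E
      _ = (n ! * n ! * q ^ (k * n) : ℝ) * ∑ E : Matrix (Fin t) (Fin k) F,
          (1 / ((Nat.card (LinearMap.range E.mulVecLin) : ℝ) ^ k)) := by
          rw [Finset.mul_sum]
      _ ≤ (n ! * n ! * q ^ (k * n) : ℝ) * S :=
          mul_le_mul_of_nonneg_left (sum_range_inv k t) (by positivity)
  have hsumN : (q ^ r) ^ t * (∑ E : Matrix (Fin t) (Fin k) F,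
      (n ! * Nat.card (HU f (LinearMap.range E.mulVecLin).toAddSubgroup) *
        Nat.card (LinearMap.ker E.mulVecLin) ^ n)) ≤ (n ! * n ! * q ^ (k * n)) * S := by
    exact_mod_cast hsum
  have hcardM : Fintype.card (Matrix (Fin t) (Fin k) F) = q ^ (t * k) := by
    have : Fintype.card (Fin t → Fin k → F) = q ^ (t * k) := by
      rw [Fintype.card_fun, Fintype.card_fun, Fintype.card_fin, Fintype.card_fin, ← pow_mul,
        mul_comm t k]
    exact this
  have hcardG : Fintype.card (Fin n → Fin k → F) = q ^ (k * n) := by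
    rw [Fintype.card_fun, Fintype.card_fun, Fintype.card_fin, Fintype.card_fin, ← pow_mul]
  -- choose G
  have htot := total_le (k := k) f
  obtain ⟨G, hG⟩ : ∃ G : Fin n → (Fin k → F), (q ^ r) ^ t *
      (univ.filter (fun p : (Matrix (Fin t) (Fin k) F × Equiv.Perm (Fin n)) ×
        (Matrix (Fin t) (Fin k) F × Equiv.Perm (Fin n)) => Psi f G p.1 = Psi f G p.2)).card ≤
      q ^ (t * k) * (n ! * n ! * S) := by
    by_contra hcon
    push Not at hcon
    have h1 : ∑ _G : Fin n → (Fin k → F), q ^ (t * k) * (n ! * n ! * S) <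
        ∑ G : Fin n → (Fin k → F), (q ^ r) ^ t *
      (univ.filter (fun p : (Matrix (Fin t) (Fin k) F × Equiv.Perm (Fin n)) ×
        (Matrix (Fin t) (Fin k) F × Equiv.Perm (Fin n)) =>
          Psi f G p.1 = Psi f G p.2)).card := by
      apply Finset.sum_lt_sum_of_nonempty
      · exact ⟨fun _ _ => 0, Finset.mem_univ _⟩
      · intro G _
        exact hcon G
    rw [Finset.sum_const, Finset.card_univ, hcardG, smul_eq_mul, ← Finset.mul_sum] at h1
    have h2 : (q ^ r) ^ t * ∑ G : Fin n → (Fin k → F),
      (univ.filter (fun p : (Matrix (Fin t) (Fin k) F × Equiv.Perm (Fin n)) ×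
        (Matrix (Fin t) (Fin k) F × Equiv.Perm (Fin n)) =>
          Psi f G p.1 = Psi f G p.2)).card ≤ q ^ (k * n) * (q ^ (t * k) * (n ! * n ! * S)) := by
      calc _ ≤ (q ^ r) ^ t * (Fintype.card (Matrix (Fin t) (Fin k) F) *
            ∑ E : Matrix (Fin t) (Fin k) F,
            n ! * Nat.card (HU f (LinearMap.range E.mulVecLin).toAddSubgroup) *
              Nat.card (LinearMap.ker E.mulVecLin) ^ n) := Nat.mul_le_mul_left _ htot
        _ = q ^ (t * k) * ((q ^ r) ^ t * ∑ E : Matrix (Fin t) (Fin k) F,
            n ! * Nat.card (HU f (LinearMap.range E.mulVecLin).toAddSubgroup) *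
              Nat.card (LinearMap.ker E.mulVecLin) ^ n) := by
            rw [hcardM]; ring
        _ ≤ q ^ (t * k) * ((n ! * n ! * q ^ (k * n)) * S) := Nat.mul_le_mul_left _ hsumN
        _ = _ := by ring
    exact absurd h1 (not_lt.mpr h2)
  refine ⟨G, ?_⟩
  have hcs := cs (Psi f G)
  rw [Fintype.card_prod, hcardM, Fintype.card_perm, Fintype.card_fin] at hcs
  set I := (univ.image (Psi f G)).card with hI
  have h1 : (q ^ r) ^ t * (q ^ (t * k) * n !) ^ 2 ≤ I * (q ^ (t * k) * (n ! * n ! * S)) := by
    calc (q ^ r) ^ t * (q ^ (t * k) * n !) ^ 2 ≤ (q ^ r) ^ t * (I * _) :=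
          Nat.mul_le_mul_left _ hcs
      _ = I * ((q ^ r) ^ t * _) := by ring
      _ ≤ _ := Nat.mul_le_mul_left _ hG
  have hpos : 0 < q ^ (t * k) * (n ! * n !) := by positivity
  have h2 : (q ^ (t * k) * (n ! * n !)) * q ^ (t * n) ≤
      (q ^ (t * k) * (n ! * n !)) * (S * I) := by
    calc (q ^ (t * k) * (n ! * n !)) * q ^ (t * n)
        = (q ^ r) ^ t * (q ^ (t * k) * n !) ^ 2 := by
          rw [← hr, mul_add t r k, pow_add, ← pow_mul, mul_comm r t]
          ring
      _ ≤ _ := h1
      _ = _ := by ring
  exact Nat.le_of_mul_le_mul_left h2 hpos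

end main

end Pool.Agent.V11181.TCR
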