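import Mathlib
import Pool.Agent.V11181.TCR.Perm

open Finset
open scoped Nat

namespace Pool.Agent.V11181.TCR

section fact

theorem fact_aux1 (m d : ℕ) : (m + d)! ≤ m ! * (m + d) ^ d := by
  rw [← Nat.factorial_mul_ascFactorial]
  exact Nat.mul_le_mul_left _ (Nat.ascFactorial_le_pow_add _ _)

theorem fact_aux2 (a m : ℕ) : a ! * a ^ m ≤ m ! * a ^ a := by
  rcases Nat.le_total a m with h | h
  · obtain ⟨d, rfl⟩ := Nat.exists_eq_add_of_le h
    have h1 : a ! * a ^ d ≤ (a + d)! :=
      le_trans (Nat.mul_le_mul_left _ (Nat.pow_le_pow_left (Nat.le_succ a) d))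
        Nat.factorial_mul_pow_le_factorial
    calc a ! * a ^ (a + d) = (a ! * a ^ d) * a ^ a := by rw [pow_add]; ring
      _ ≤ (a + d)! * a ^ a := Nat.mul_le_mul_right _ h1
  · obtain ⟨d, rfl⟩ := Nat.exists_eq_add_of_le h
    calc (m + d)! * (m + d) ^ m ≤ (m ! * (m + d) ^ d) * (m + d) ^ m :=
          Nat.mul_le_mul_right _ (fact_aux1 m d)
      _ = m ! * (m + d) ^ (m + d) := by rw [pow_add]; ring

theorem fact_aux3 {ι : Type*} (s : Finset ι) (τ : ι → ℕ) (a : ℕ)
    (h : a * s.card ≤ ∑ x ∈ s, τ x) : (a !) ^ s.card ≤ ∏ x ∈ s, (τ x)! := by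
  rcases Nat.eq_zero_or_pos a with ha | ha
  · subst ha
    rw [Nat.factorial_zero, one_pow]
    exact Finset.prod_pos (fun x _ => Nat.factorial_pos _)
  · have h1 : ∏ x ∈ s, (a ! * a ^ (τ x)) ≤ ∏ x ∈ s, ((τ x)! * a ^ a) :=
      Finset.prod_le_prod' (fun x _ => fact_aux2 a (τ x))
    rw [Finset.prod_mul_distrib, Finset.prod_mul_distrib, Finset.prod_const, Finset.prod_const,
      Finset.prod_pow_eq_pow_sum, ← pow_mul] at h1
    have h2 : (a !) ^ s.card * a ^ (∑ x ∈ s, τ x) ≤
        (∏ x ∈ s, (τ x)!) * a ^ (∑ x ∈ s, τ x) :=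
      le_trans h1 (Nat.mul_le_mul_left _ (Nat.pow_le_pow_right ha h))
    exact Nat.le_of_mul_le_mul_right h2 (by positivity)

end fact

section types

variable {n : ℕ} {A : Type*} [Fintype A] [DecidableEq A]

theorem exists_fun (τ : A → ℕ) (h : ∑ x, τ x = n) :
    ∃ f : Fin n → A, ∀ x, Fintype.card {i // f i = x} = τ x := by
  have hc : Fintype.card (Fin n) = Fintype.card (Σ x : A, Fin (τ x)) := by
    rw [Fintype.card_sigma, Fintype.card_fin]
    simp [h]
  let e : Fin n ≃ Σ x : A, Fin (τ x) := Fintype.equivOfCardEq hc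
  refine ⟨fun i => (e i).1, fun x => ?_⟩
  rw [← Fintype.card_fin (τ x)]
  apply Fintype.card_congr
  exact (e.subtypeEquiv (fun i => Iff.rfl)).trans (Equiv.sigmaSubtype (β := fun x => Fin (τ x)) x)

omit [Fintype A] in
theorem exists_perm (f f' : Fin n → A)
    (h : ∀ x, Fintype.card {i // f i = x} = Fintype.card {i // f' i = x}) :
    ∃ g : Equiv.Perm (Fin n), f ∘ g = f' := by
  have e : ∀ x, {i // f' i = x} ≃ {i // f i = x} := fun x => Fintype.equivOfCardEq (h x).symm
  refine ⟨(Equiv.sigmaFiberEquiv f').symm.trans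
    ((Equiv.sigmaCongrRight e).trans (Equiv.sigmaFiberEquiv f)), ?_⟩
  funext i
  simp only [Function.comp_apply, Equiv.trans_apply]
  exact (e (f' i) ⟨i, rfl⟩).2

theorem orb_count (f : Fin n → A) (S : Finset (Fin n → A))
    (hS : ∀ u ∈ S, ∀ x, Fintype.card {i // u i = x} = Fintype.card {i // f i = x}) :
    S.card * ∏ x, (Fintype.card {i // f i = x})! ≤ n ! := by
  classical
  rw [← DomMulAct.stabilizer_card f]
  have h1 : n ! = (univ : Finset (Equiv.Perm (Fin n))).card := by
    rw [Finset.card_univ, Fintype.card_perm, Fintype.card_fin]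
  rw [h1]
  have h2 : ∀ u ∈ S, (univ.filter (fun g : Equiv.Perm (Fin n) => f ∘ g = u)).card =
      Fintype.card {g : Equiv.Perm (Fin n) // f ∘ g = f} := by
    intro u hu
    obtain ⟨g1, hg1⟩ := exists_perm f u (fun x => (hS u hu x).symm)
    rw [← Fintype.card_subtype]
    apply Fintype.card_congr
    refine (Equiv.mulRight g1⁻¹).subtypeEquiv ?_
    intro g
    constructor
    · intro hg
      funext i
      have h3 := congrFun hg (g1⁻¹ i)
      have h4 := congrFun hg1 (g1⁻¹ i)
      have h5 : g1 (g1⁻¹ i) = i := Equiv.apply_symm_apply g1 i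
      simp only [Function.comp_apply] at h3 h4
      rw [h5] at h4
      simp only [Function.comp_apply, Equiv.coe_mulRight, Equiv.Perm.mul_apply]
      rw [h3, ← h4]
    · intro hg
      funext i
      have h3 := congrFun hg (g1 i)
      simp only [Function.comp_apply, Equiv.coe_mulRight, Equiv.Perm.mul_apply] at h3
      have h5 : g1⁻¹ (g1 i) = i := Equiv.symm_apply_apply g1 i
      rw [h5] at h3
      rw [← hg1]
      exact h3
  calc S.card * Fintype.card {g : Equiv.Perm (Fin n) // f ∘ g = f}
      = ∑ u ∈ S, (univ.filter (fun g : Equiv.Perm (Fin n) => f ∘ g = u)).card := by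
        rw [Finset.sum_congr rfl h2, Finset.sum_const, smul_eq_mul]
    _ = (S.biUnion (fun u => univ.filter (fun g : Equiv.Perm (Fin n) => f ∘ g = u))).card := by
        rw [Finset.card_biUnion]
        intro u _ v _ huv
        rw [Function.onFun, Finset.disjoint_left]
        intro g hg hg'
        simp only [mem_filter, mem_univ, true_and] at hg hg'
        exact huv (hg.symm.trans hg')
    _ ≤ _ := Finset.card_le_card (Finset.subset_univ _)

end types

section ball

variable {n : ℕ} {A : Type*} [AddCommGroup A] [Fintype A] [DecidableEq A]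

/-- the volume of the ball of radius `r` -/
def ball (n : ℕ) (A : Type*) [AddCommGroup A] [Fintype A] [DecidableEq A] (r : ℕ) :
    Finset (Fin n → A) :=
  univ.filter (fun u => (univ.filter (fun i => u i ≠ 0)).card ≤ r)

theorem ball_bound (hn : 1 ≤ n) (r : ℕ) (hQ : 2 ≤ Fintype.card A) :
    ∃ (a b : ℕ) (f : Fin n → A), Balanced f a b ∧
      (univ.filter (fun i => f i ≠ 0)).card ≤ r ∧
      (ball n A r).card * hF (Fintype.card A) a b 1 ≤
        ((n + 1) ^ Fintype.card A * n ^ Fintype.card A) * n ! := by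
  classical
  set Q := Fintype.card A with hQdef
  let ty : (Fin n → A) → (A → Fin (n + 1)) := fun u x =>
    ⟨Fintype.card {i // u i = x}, by
      have := Fintype.card_subtype_le (fun i => u i = x)
      rw [Fintype.card_fin] at this
      omega⟩
  have hzero : (0 : Fin n → A) ∈ ball n A r := by
    simp [ball]
  obtain ⟨y, hy, hmax⟩ := Finset.exists_max_image ((ball n A r).image ty)
    (fun y => ((ball n A r).filter (fun u => ty u = y)).card) ⟨ty 0, mem_image_of_mem _ hzero⟩
  have hV : (ball n A r).card ≤ ((ball n A r).filter (fun u => ty u = y)).card * (n + 1) ^ Q := by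
    have h1 := Finset.card_le_mul_card_image_of_maps_to (s := ball n A r) (f := ty)
      (t := (ball n A r).image ty) (fun u hu => mem_image_of_mem _ hu)
      ((ball n A r).filter (fun u => ty u = y)).card (fun z hz => hmax z hz)
    have h2 : ((ball n A r).image ty).card ≤ (n + 1) ^ Q := by
      refine (Finset.card_le_card (Finset.subset_univ _)).trans ?_
      rw [Finset.card_univ, Fintype.card_fun, Fintype.card_fin]
    exact h1.trans (Nat.mul_le_mul_left _ h2)
  obtain ⟨u0, hu0, hu0y⟩ := Finset.mem_image.mp hy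
  set S := (ball n A r).filter (fun u => ty u = y) with hS
  let τ : A → ℕ := fun x => Fintype.card {i // u0 i = x}
  have horb := orb_count u0 S (by
    intro u hu x
    rw [hS, mem_filter] at hu
    have h1 : ty u = ty u0 := by rw [hu.2, hu0y]
    exact congrArg Fin.val (congrFun h1 x))
  have hsumτ : ∑ x, τ x = n := by
    have h1 := Finset.card_eq_sum_card_fiberwise (s := (univ : Finset (Fin n))) (f := u0)
      (t := univ) (by intro i _; simp)
    rw [Finset.card_univ, Fintype.card_fin] at h1
    rw [h1]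
    apply Finset.sum_congr rfl
    intro x _
    simp only [τ]
    rw [Fintype.card_subtype]
  set j := ∑ x ∈ univ.erase (0 : A), τ x with hj
  have hj0 : τ 0 + j = n := by
    rw [hj, Finset.add_sum_erase _ _ (Finset.mem_univ _), hsumτ]
  have hjr : j ≤ r := by
    have h1 : (univ.filter (fun i => u0 i ≠ 0)).card ≤ r := by
      simpa [ball] using hu0
    have h2 : (univ.filter (fun i => u0 i ≠ 0)).card + τ 0 = n := by
      have h3 := Finset.card_filter_add_card_filter_not (s := (univ : Finset (Fin n)))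
        (fun i => u0 i ≠ 0)
      rw [Finset.card_univ, Fintype.card_fin] at h3
      simp only [τ]
      rw [Fintype.card_subtype]
      simpa using h3
    omega
  have hQ1 : 0 < Q - 1 := by omega
  set a := j / (Q - 1) with ha
  have ha1 : a * (Q - 1) ≤ j := Nat.div_mul_le_self _ _
  have ha2 : j < a * (Q - 1) + (Q - 1) := Nat.lt_div_mul_add hQ1
  set b := n - a * (Q - 1) with hb
  have hbn : b + a * (Q - 1) = n := by omega
  obtain ⟨f, hf⟩ := exists_fun (n := n) (fun x : A => if x = 0 then b else a) (by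
    rw [← Finset.add_sum_erase univ _ (Finset.mem_univ (0 : A)), if_pos rfl,
      Finset.sum_congr rfl (g := fun _ => a)]
    · rw [Finset.sum_const, Finset.card_erase_of_mem (Finset.mem_univ _), Finset.card_univ,
        smul_eq_mul, ← hbn, mul_comm a]
    · intro x hx
      rw [if_neg (Finset.ne_of_mem_erase hx)])
  have hbal : Balanced f a b := by
    constructor
    · intro x hx
      rw [hf x, if_neg hx]
    · rw [hf 0, if_pos rfl]
  refine ⟨a, b, f, hbal, ?_, ?_⟩
  · have h3 := Finset.card_filter_add_card_filter_not (s := (univ : Finset (Fin n)))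
        (fun i => f i ≠ 0)
    rw [Finset.card_univ, Fintype.card_fin] at h3
    have h4 : (univ.filter (fun i => ¬ f i ≠ 0)).card = b := by
      rw [← hbal.2, Fintype.card_subtype]
      congr 1
      ext i
      simp
    omega
  · have hF1 : hF Q a b 1 = b ! * (a !) ^ (Q - 1) := by
      simp [hF]
    rw [hF1]
    have hb1 : b ! ≤ (τ 0)! * n ^ Q := by
      have hbe : b = τ 0 + (j - a * (Q - 1)) := by omega
      calc b ! = (τ 0 + (j - a * (Q - 1)))! := by rw [← hbe]
        _ ≤ (τ 0)! * (τ 0 + (j - a * (Q - 1))) ^ (j - a * (Q - 1)) := fact_aux1 _ _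
        _ ≤ (τ 0)! * n ^ (j - a * (Q - 1)) :=
            Nat.mul_le_mul_left _ (Nat.pow_le_pow_left (by omega) _)
        _ ≤ (τ 0)! * n ^ Q :=
            Nat.mul_le_mul_left _ (Nat.pow_le_pow_right hn (by omega))
    have ha3 : (a !) ^ (Q - 1) ≤ ∏ x ∈ univ.erase (0 : A), (τ x)! := by
      have hc : (univ.erase (0 : A)).card = Q - 1 := by
        rw [Finset.card_erase_of_mem (Finset.mem_univ _), Finset.card_univ]
      rw [← hc]
      apply fact_aux3
      rw [hc]
      exact ha1
    have hprod : (τ 0)! * ∏ x ∈ univ.erase (0 : A), (τ x)! = ∏ x, (τ x)! :=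
      Finset.mul_prod_erase univ (fun x => (τ x)!) (Finset.mem_univ _)
    calc (ball n A r).card * (b ! * (a !) ^ (Q - 1))
        ≤ (S.card * (n + 1) ^ Q) * (((τ 0)! * n ^ Q) *
            ∏ x ∈ univ.erase (0 : A), (τ x)!) :=
          Nat.mul_le_mul hV (Nat.mul_le_mul hb1 ha3)
      _ = ((n + 1) ^ Q * n ^ Q) * (S.card * ((τ 0)! * ∏ x ∈ univ.erase (0 : A), (τ x)!)) := by
          ring
      _ ≤ ((n + 1) ^ Q * n ^ Q) * n ! := by
          rw [hprod]
          exact Nat.mul_le_mul_left _ horb

end ball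

end Pool.Agent.V11181.TCR
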