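import Mathlib
import Pool.Agent.V11181.TCR.Perm
import Pool.Agent.V11181.TCR.Moment
import Pool.Agent.V11181.TCR.Types

open Finset
open scoped Nat

namespace Pool.Agent.V11181.TCR

variable {F : Type*} [Field F] [Fintype F] [DecidableEq F] {n k t : ℕ}

/-- all rows of the (column-indexed) matrix `c` lie in `C` -/
def InC (C : Set (Fin n → F)) (c : Fin n → (Fin t → F)) : Prop := ∀ i, (fun j => c j i) ∈ C

/-- number of nonzero columns -/
def colw (u : Fin n → (Fin t → F)) : ℕ := (univ.filter (fun j => u j ≠ 0)).card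

open Classical in
/-- words not covered within radius `r` -/
noncomputable def Unc (t : ℕ) (C : Set (Fin n → F)) (r : ℕ) : Finset (Fin n → Fin t → F) :=
  univ.filter (fun u => ¬ ∃ c, InC C c ∧ colw (c - u) ≤ r)

theorem mem_Unc (C : Set (Fin n → F)) (r : ℕ) (u : Fin n → Fin t → F) :
    u ∈ Unc t C r ↔ ¬ ∃ c, InC C c ∧ colw (c - u) ≤ r := by
  simp [Unc]

omit [Field F] [DecidableEq F] in
theorem cardN : Fintype.card (Fin n → Fin t → F) = Fintype.card F ^ (t * n) := by
  rw [Fintype.card_fun, Fintype.card_fun, Fintype.card_fin, Fintype.card_fin, ← pow_mul]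

/-- the doubling step -/
theorem step (C : Submodule F (Fin n → F)) (r : ℕ) :
    ∃ C' : Submodule F (Fin n → F), Module.finrank F C' ≤ Module.finrank F C + t ∧
      (Unc t (C' : Set (Fin n → F)) r).card * Fintype.card F ^ (t * n) ≤
        (Unc t (C : Set (Fin n → F)) r).card ^ 2 := by
  classical
  set U := Unc t (C : Set (Fin n → F)) r with hU
  have hsum : ∑ X : Fin n → Fin t → F, (U.filter (fun u => u - X ∈ U)).card = U.card ^ 2 := by
    calc ∑ X : Fin n → Fin t → F, (U.filter (fun u => u - X ∈ U)).card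
        = ∑ X : Fin n → Fin t → F, ∑ u ∈ U, if u - X ∈ U then 1 else 0 := by
          apply Finset.sum_congr rfl
          intro X _
          rw [Finset.card_filter]
      _ = ∑ u ∈ U, ∑ X : Fin n → Fin t → F, if u - X ∈ U then 1 else 0 := Finset.sum_comm
      _ = ∑ u ∈ U, U.card := by
          apply Finset.sum_congr rfl
          intro u _
          rw [Fintype.sum_equiv (Equiv.subLeft u)
            (fun X => if u - X ∈ U then 1 else 0) (fun v => if v ∈ U then 1 else 0)
            (fun X => rfl)]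
          simp
      _ = U.card ^ 2 := by
          rw [Finset.sum_const, smul_eq_mul, sq]
  obtain ⟨X, hX⟩ : ∃ X : Fin n → Fin t → F,
      (U.filter (fun u => u - X ∈ U)).card * Fintype.card F ^ (t * n) ≤ U.card ^ 2 := by
    by_contra hcon
    push Not at hcon
    have h1 : ∑ _X : Fin n → Fin t → F, U.card ^ 2 <
        ∑ X : Fin n → Fin t → F,
          (U.filter (fun u => u - X ∈ U)).card * Fintype.card F ^ (t * n) := by
      apply Finset.sum_lt_sum_of_nonempty
      · exact ⟨0, Finset.mem_univ _⟩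
      · intro X _
        exact hcon X
    rw [Finset.sum_const, Finset.card_univ, cardN, ← Finset.sum_mul, hsum, smul_eq_mul,
      mul_comm] at h1
    exact lt_irrefl _ h1
  refine ⟨C ⊔ Submodule.span F (Set.range (fun (i : Fin t) (j : Fin n) => X j i)), ?_, ?_⟩
  · refine (Submodule.finrank_add_le_finrank_add_finrank _ _).trans ?_
    apply Nat.add_le_add_left
    have := finrank_range_le_card (R := F) (fun (i : Fin t) (j : Fin n) => X j i)
    rw [Fintype.card_fin] at this
    exact this
  · refine le_trans (Nat.mul_le_mul_right _ (Finset.card_le_card ?_)) hX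
    intro u hu
    rw [mem_Unc] at hu
    rw [Finset.mem_filter]
    constructor
    · rw [hU, mem_Unc]
      rintro ⟨c, hc, hcu⟩
      exact hu ⟨c, fun i => Submodule.mem_sup_left (hc i), hcu⟩
    · rw [hU, mem_Unc]
      rintro ⟨c, hc, hcu⟩
      refine hu ⟨c + X, fun i => ?_, ?_⟩
      · refine Submodule.add_mem_sup (hc i) (Submodule.subset_span ⟨i, rfl⟩)
      · rwa [show c + X - u = c - (u - X) by abel]

theorem iterate (C : Submodule F (Fin n → F)) (r : ℕ) (m : ℕ) :
    ∃ C' : Submodule F (Fin n → F), Module.finrank F C' ≤ Module.finrank F C + t * m ∧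
      ((Unc t (C' : Set (Fin n → F)) r).card : ℝ) / (Fintype.card F : ℝ) ^ (t * n) ≤
        (((Unc t (C : Set (Fin n → F)) r).card : ℝ) / (Fintype.card F : ℝ) ^ (t * n)) ^
          (2 ^ m) := by
  induction m with
  | zero => exact ⟨C, by simp, by simp⟩
  | succ m ih =>
    obtain ⟨C1, h1, h2⟩ := ih
    obtain ⟨C2, h3, h4⟩ := step (t := t) C1 r
    refine ⟨C2, by rw [mul_add, mul_one]; omega, ?_⟩
    have hN : (0 : ℝ) < (Fintype.card F : ℝ) ^ (t * n) := by
      have : 0 < Fintype.card F := Fintype.card_pos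
      positivity
    have h5 : ((Unc t (C2 : Set (Fin n → F)) r).card : ℝ) / (Fintype.card F : ℝ) ^ (t * n) ≤
        (((Unc t (C1 : Set (Fin n → F)) r).card : ℝ) / (Fintype.card F : ℝ) ^ (t * n)) ^ 2 := by
      rw [div_pow, div_le_div_iff₀ hN (by positivity)]
      have h6 : ((Unc t (C2 : Set (Fin n → F)) r).card : ℝ) * (Fintype.card F : ℝ) ^ (t * n) ≤
        ((Unc t (C1 : Set (Fin n → F)) r).card : ℝ) ^ 2 := by exact_mod_cast h4
      nlinarith
    refine h5.trans ?_
    rw [pow_succ 2 m, pow_mul _ (2 ^ m) 2]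
    exact pow_le_pow_left₀ (by positivity) h2 2

/-- the code generated by `G` -/
def codeG (G : Fin n → (Fin k → F)) : Submodule F (Fin n → F) :=
  LinearMap.range (Matrix.mulVecLin (Matrix.of G))

omit [Fintype F] [DecidableEq F] in
theorem codeG_finrank (G : Fin n → (Fin k → F)) : Module.finrank F (codeG G) ≤ k := by
  have := LinearMap.finrank_range_le (Matrix.mulVecLin (Matrix.of G))
  rw [Module.finrank_fintype_fun_eq_card, Fintype.card_fin] at this
  exact this

theorem codeG_cover (f : Fin n → (Fin t → F)) (G : Fin n → (Fin k → F)) (r : ℕ)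
    (hf : colw f ≤ r) :
    (Unc t (codeG G : Set (Fin n → F)) r).card + (univ.image (Psi f G)).card ≤
      Fintype.card F ^ (t * n) := by
  classical
  rw [← Finset.card_union_of_disjoint, ← cardN, ← Finset.card_univ]
  · exact Finset.card_le_card (Finset.subset_univ _)
  · rw [Finset.disjoint_left]
    intro u hu hu'
    rw [mem_Unc] at hu
    rw [Finset.mem_image] at hu'
    obtain ⟨⟨D, g⟩, -, rfl⟩ := hu'
    apply hu
    refine ⟨fun i => D.mulVec (G i), fun i => ?_, ?_⟩
    · refine ⟨D i, ?_⟩
      funext j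
      simp only [Matrix.mulVecLin_apply, Matrix.mulVec, Matrix.of_apply]
      exact dotProduct_comm _ _
    · have h1 : (fun i => D.mulVec (G i)) - Psi f G (D, g) = fun i => f (g i) := by
        funext i
        simp [Psi]
      rw [h1]
      have h2 : colw (fun i => f (g i)) = colw f := by
        unfold colw
        rw [← Finset.card_map g.toEmbedding]
        congr 1
        ext i
        simp only [Finset.mem_map, mem_filter, mem_univ, true_and, Equiv.coe_toEmbedding]
        constructor
        · rintro ⟨j, hj, rfl⟩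
          exact hj
        · intro h
          exact ⟨g.symm i, by simpa using h, by simp⟩
      rw [h2]
      exact hf

/-- sphere covering bound for general codes -/
theorem general_bound (C0 : Set (Fin n → F)) (r : ℕ)
    (h : ∀ u : Fin n → Fin t → F, ∃ c, InC C0 c ∧ colw (c - u) ≤ r) :
    Fintype.card F ^ (t * n) ≤ Nat.card C0 ^ t * (ball n (Fin t → F) r).card := by
  classical
  choose c hc hcr using h
  have hinj : Function.Injective
      (fun u : Fin n → Fin t → F => ((fun i => ⟨fun j => c u j i, hc u i⟩ : Fin t → C0),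
        (⟨c u - u, by
          simp only [ball, mem_filter, mem_univ, true_and]
          exact hcr u⟩ : ball n (Fin t → F) r))) := by
    intro u v huv
    rw [Prod.mk.injEq] at huv
    have h1 : c u = c v := by
      funext j i
      have := congrArg Subtype.val (congrFun huv.1 i)
      exact congrFun this j
    have h2 : c u - u = c v - v := congrArg Subtype.val huv.2
    rw [h1] at h2
    exact sub_right_injective h2
  have h3 := Nat.card_le_card_of_injective _ hinj
  rw [Nat.card_eq_fintype_card, cardN, Nat.card_prod, Nat.card_fun,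
    Nat.card_eq_fintype_card (α := Fin t), Fintype.card_fin,
    Nat.card_eq_fintype_card (α := ball n (Fin t → F) r), Fintype.card_coe] at h3
  exact h3

/-- number of doubling steps -/
noncomputable def msteps (S : ℕ) (N : ℝ) : ℕ := ⌈Real.logb 2 (S * Real.log N + 1)⌉₊

/-- full linear covering after doubling -/
theorem full_cover (C : Submodule F (Fin n → F)) (r S I : ℕ) (hS : 0 < S)
    (ht : 1 ≤ t) (hn : 1 ≤ n)
    (h1 : Fintype.card F ^ (t * n) ≤ S * I)
    (h2 : (Unc t (C : Set (Fin n → F)) r).card + I ≤ Fintype.card F ^ (t * n)) :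
    ∃ C' : Submodule F (Fin n → F),
      Module.finrank F C' ≤ Module.finrank F C +
        t * msteps S ((Fintype.card F : ℝ) ^ (t * n)) ∧
      ∀ u : Fin n → Fin t → F, ∃ c, InC (C' : Set (Fin n → F)) c ∧ colw (c - u) ≤ r := by
  set N : ℝ := (Fintype.card F : ℝ) ^ (t * n) with hN
  set m := msteps S N with hm
  obtain ⟨C', hC', hU⟩ := iterate (t := t) C r m
  refine ⟨C', hC', ?_⟩
  have hq : (1 : ℝ) < Fintype.card F := by
    exact_mod_cast Fintype.one_lt_card
  have hN1 : (1 : ℝ) < N := one_lt_pow₀ hq (Nat.mul_ne_zero (by omega) (by omega))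
  have hN0 : (0 : ℝ) < N := by linarith
  have hSr : (0 : ℝ) < S := by exact_mod_cast hS
  have h1' : N ≤ S * I := by rw [hN]; exact_mod_cast h1
  have h2' : ((Unc t (C : Set (Fin n → F)) r).card : ℝ) + I ≤ N := by
    rw [hN]; exact_mod_cast h2
  have hlogN : 0 < Real.log N := Real.log_pos hN1
  have hfrac : ((Unc t (C : Set (Fin n → F)) r).card : ℝ) / N ≤ 1 - 1 / S := by
    rw [div_le_iff₀ hN0]
    have h3 : N / S ≤ I := by
      rw [div_le_iff₀ hSr]
      linarith
    have h4 : (1 - 1 / (S : ℝ)) * N = N - N / S := by ring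
    rw [h4]
    linarith
  have hexp : (1 - 1 / (S : ℝ)) ^ (2 ^ m) < 1 / N := by
    have h5 : (1 - 1 / (S : ℝ)) ≤ Real.exp (-(1 / S)) := Real.one_sub_le_exp_neg _
    have h6 : (0 : ℝ) ≤ 1 - 1 / (S : ℝ) := by
      refine le_trans ?_ hfrac
      positivity
    have h7 : (1 - 1 / (S : ℝ)) ^ (2 ^ m) ≤ Real.exp (-(1 / S)) ^ (2 ^ m) :=
      pow_le_pow_left₀ h6 h5 _
    refine lt_of_le_of_lt h7 ?_
    have hNexp : 1 / N = Real.exp (-Real.log N) := by
      rw [Real.exp_neg, Real.exp_log hN0, one_div]
    rw [← Real.exp_nat_mul, hNexp]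
    apply Real.exp_lt_exp.mpr
    have h8 : (S : ℝ) * Real.log N + 1 ≤ (2 : ℝ) ^ m := by
      have h9 : Real.logb 2 (S * Real.log N + 1) ≤ (m : ℝ) := by
        rw [hm]
        exact Nat.le_ceil _
      have h10 : (0 : ℝ) < S * Real.log N + 1 := by positivity
      rw [Real.logb_le_iff_le_rpow (by norm_num) h10, Real.rpow_natCast] at h9
      exact h9
    push_cast
    have h11 : Real.log N < (2 : ℝ) ^ m * (1 / S) := by
      rw [mul_one_div, lt_div_iff₀ hSr]
      linarith
    linarith
  have hlt : ((Unc t (C' : Set (Fin n → F)) r).card : ℝ) / N < 1 / N := by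
    refine lt_of_le_of_lt hU (lt_of_le_of_lt ?_ hexp)
    exact pow_le_pow_left₀ (by positivity) hfrac _
  have hlt' : ((Unc t (C' : Set (Fin n → F)) r).card : ℝ) < 1 := by
    rwa [div_lt_div_iff_of_pos_right hN0] at hlt
  have hzero : (Unc t (C' : Set (Fin n → F)) r).card = 0 := by
    have : (Unc t (C' : Set (Fin n → F)) r).card < 1 := by exact_mod_cast hlt'
    omega
  intro u
  by_contra hcon
  have : u ∈ Unc t (C' : Set (Fin n → F)) r := (mem_Unc _ _ _).mpr hcon
  rw [Finset.card_eq_zero] at hzero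
  rw [hzero] at this
  exact absurd this (Finset.notMem_empty _)

/-- the error term -/
noncomputable def err (F : Type*) [Field F] [Fintype F] [DecidableEq F] (t n : ℕ) : ℝ :=
  Real.logb (Fintype.card F) (((n : ℝ) + 1) ^ (Fintype.card F ^ t) *
    (n : ℝ) ^ (Fintype.card F ^ t)) / t + 1 +
    t * msteps (Nat.card (Submodule F (Fin t → F))) ((Fintype.card F : ℝ) ^ (t * n))

theorem lin_vs_general (hn : 1 ≤ n) (ht : 1 ≤ t) (r : ℕ) (C0 : Set (Fin n → F))
    (h : ∀ u : Fin n → Fin t → F, ∃ c, InC C0 c ∧ colw (c - u) ≤ r) :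
    ∃ C : Submodule F (Fin n → F),
      (∀ u : Fin n → Fin t → F, ∃ c, InC (C : Set (Fin n → F)) c ∧ colw (c - u) ≤ r) ∧
      (Module.finrank F C : ℝ) ≤ Real.logb (Fintype.card F) (Nat.card C0) + err F t n := by
  classical
  have hq1 : 1 < Fintype.card F := Fintype.one_lt_card
  have hcA : Fintype.card (Fin t → F) = Fintype.card F ^ t := by
    rw [Fintype.card_fun, Fintype.card_fin]
  have hQ : 2 ≤ Fintype.card (Fin t → F) := by
    rw [hcA]
    exact Nat.one_lt_pow (by omega) hq1
  obtain ⟨a, b, f, hbal, hwf, hV⟩ := ball_bound (A := Fin t → F) hn r hQ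
  rw [hcA] at hV
  set q := Fintype.card F with hqdef
  set S := Nat.card (Submodule F (Fin t → F)) with hSdef
  have hSpos : 0 < S := Nat.card_pos
  set h0 := hF (q ^ t) a b 1 with hh0
  have h0pos : 0 < h0 := by
    rw [hh0]; unfold hF; positivity
  have h0le : h0 ≤ n ! := by
    have h1 := HU_card_balanced f hbal ⊥
    have h3 : Nat.card (Fin t → F) = q ^ t := by simp [hqdef]
    rw [h3, AddSubgroup.card_bot] at h1
    rw [hh0, ← h1]
    have h4 := Subgroup.card_le_card_group (HU f ⊥)
    rw [Nat.card_eq_fintype_card (α := Equiv.Perm (Fin n)), Fintype.card_perm,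
      Fintype.card_fin] at h4
    exact h4
  set r' := Nat.findGreatest (fun x => (q ^ x) ^ t * h0 ≤ n !) n with hr'
  have hP : (q ^ r') ^ t * h0 ≤ n ! := by
    have := Nat.findGreatest_spec (P := fun x => (q ^ x) ^ t * h0 ≤ n !) (Nat.zero_le n)
      (by simpa using h0le)
    exact this
  have hr'n : r' ≤ n := Nat.findGreatest_le n
  set k := n - r' with hk
  have hrk : r' + k = n := by omega
  obtain ⟨G, hG⟩ := exists_G (k := k) f hbal r' hrk hP
  have hcov := codeG_cover f G r hwf
  obtain ⟨C, hC1, hC2⟩ := full_cover (codeG G) r S _ hSpos ht hn hG hcov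
  refine ⟨C, hC2, ?_⟩
  have hfr : (Module.finrank F C : ℝ) ≤ k + t * msteps S ((q : ℝ) ^ (t * n)) := by
    have h5 : Module.finrank F C ≤ k + t * msteps S ((q : ℝ) ^ (t * n)) :=
      hC1.trans (Nat.add_le_add_right (codeG_finrank G) _)
    exact_mod_cast h5
  -- bound on k
  set Pn : ℝ := ((n : ℝ) + 1) ^ (q ^ t) * (n : ℝ) ^ (q ^ t) with hPn
  have hqr : (1 : ℝ) < q := by exact_mod_cast hq1
  have hnr : (1 : ℝ) ≤ n := by exact_mod_cast hn
  have hPn1 : 1 ≤ Pn := by
    rw [hPn]
    exact one_le_mul_of_one_le_of_one_le (one_le_pow₀ (by linarith)) (one_le_pow₀ hnr)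
  have htr : (0 : ℝ) < t := by exact_mod_cast (by omega : 0 < t)
  have hC0pos : 0 < Nat.card C0 := by
    obtain ⟨c, hc, -⟩ := h 0
    have : Nonempty C0 := ⟨⟨_, hc ⟨0, by omega⟩⟩⟩
    exact Nat.card_pos
  have hC0r : (1 : ℝ) ≤ Nat.card C0 := by exact_mod_cast hC0pos
  have hkb : (k : ℝ) ≤ Real.logb q (Nat.card C0) + Real.logb q Pn / t + 1 := by
    rcases Nat.lt_or_ge r' n with hlt | hge
    · have hnot : n ! < (q ^ (r' + 1)) ^ t * h0 := by
        have := Nat.findGreatest_is_greatest (P := fun x => (q ^ x) ^ t * h0 ≤ n !)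
          (n := n) (k := r' + 1) (by rw [← hr']; omega) (by omega)
        exact not_le.mp this
      have hgen := general_bound C0 r h
      rw [← hqdef] at hgen
      have hV2 : (ball n (Fin t → F) r).card * h0 ≤
          ((n + 1) ^ (q ^ t) * n ^ (q ^ t)) * ((q ^ (r' + 1)) ^ t) * h0 := by
        refine hV.trans ?_
        rw [mul_assoc ((n + 1) ^ (q ^ t) * n ^ (q ^ t))]
        exact Nat.mul_le_mul_left _ hnot.le
      have hV3 := Nat.le_of_mul_le_mul_right hV2 h0pos
      have h6 : q ^ (t * n) ≤ Nat.card C0 ^ t *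
          (((n + 1) ^ (q ^ t) * n ^ (q ^ t)) * ((q ^ (r' + 1)) ^ t)) :=
        hgen.trans (Nat.mul_le_mul_left _ hV3)
      have h7 : q ^ (t * k) * (q ^ (r')) ^ t ≤ (Nat.card C0 ^ t *
          ((n + 1) ^ (q ^ t) * n ^ (q ^ t)) * q ^ t) * (q ^ r') ^ t := by
        calc q ^ (t * k) * (q ^ (r')) ^ t = q ^ (t * n) := by
              rw [← hrk, mul_add, pow_add, mul_comm t r', pow_mul q r' t, mul_comm]
          _ ≤ _ := h6
          _ = _ := by
              rw [pow_succ q r', mul_pow]
              ring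
      have h8 := Nat.le_of_mul_le_mul_right h7 (by positivity)
      have h9 : (q : ℝ) ^ (t * k) ≤ (Nat.card C0 : ℝ) ^ t * Pn * (q : ℝ) ^ t := by
        rw [hPn]
        exact_mod_cast h8
      have h10 : Real.logb q ((q : ℝ) ^ (t * k)) ≤
          Real.logb q ((Nat.card C0 : ℝ) ^ t * Pn * (q : ℝ) ^ t) :=
        Real.logb_le_logb_of_le hqr (by positivity) h9
      have hne1 : (Nat.card C0 : ℝ) ^ t ≠ 0 := by positivity
      have hne2 : Pn ≠ 0 := by positivity
      have hne3 : (q : ℝ) ^ t ≠ 0 := by positivity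
      rw [Real.logb_mul (mul_ne_zero hne1 hne2) hne3, Real.logb_mul hne1 hne2, Real.logb_pow,
        Real.logb_pow, Real.logb_pow, Real.logb_self_eq_one hqr] at h10
      push_cast at h10
      have h11 : (k : ℝ) * t ≤ (Real.logb q (Nat.card C0) + Real.logb q Pn / t + 1) * t := by
        have h12 : (Real.logb q (Nat.card C0) + Real.logb q Pn / t + 1) * t =
            t * Real.logb q (Nat.card C0) + Real.logb q Pn + t * 1 := by
          field_simp
        rw [h12]
        linarith
      exact le_of_mul_le_mul_right h11 htr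
    · have hk0 : k = 0 := by omega
      rw [hk0]
      have h12 : 0 ≤ Real.logb q (Nat.card C0) := Real.logb_nonneg hqr hC0r
      have h13 : 0 ≤ Real.logb q Pn := Real.logb_nonneg hqr hPn1
      have h14 : 0 ≤ Real.logb q Pn / t := div_nonneg h13 htr.le
      push_cast
      linarith
  unfold err
  rw [← hqdef, ← hSdef, ← hPn]
  linarith

end Pool.Agent.V11181.TCR
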